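import Pool.Agent.V7H12.PW.Fin

/-!
# MP_d037d4_ag: the `p`-adic weight-monodromy conjecture for projective hyperkähler varieties

Let `X` be a projective hyperkähler variety over a finite extension `K` of `ℚ_p`, of any deformation
type. We use the action of the Lie algebra `so(H²)` on the Hyodo-Kato cohomology (Verbitsky,
Looijenga-Lunts), weak admissibility, and the weight-monodromy conjecture for `H²`, to show that the
monodromy operator of `H^i` is the image of the one of `H²`, for all `i`. If the characteristic
polynomials of the Frobenius on `H²` and on the sum of all `H^i` are rational, then the
weight-monodromy conjecture holds for all `H^i`.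

Idea of the proof. Let `A_i` be the algebra of the endomorphisms of `H^i` which commute with `so(H²)`.

(1) The slope operator of `H^i` is `i / 2 + ρ_i (S_2 - 1) + T_i`, where `S_2` is the slope operator of
`H²` and `T_i` is in `A_i`. Let `a_i = N_i - ρ_i (N_2)`, which is in `A_i`. Then `[T_i, a_i] = - a_i`, so
the generalized eigenspace `W` of `T_i` for its smallest eigenvalue `x` is stable for `N_i`. As
`so(H²)` is perfect, the Hodge numbers of `W` are `i / 2` times its dimension, and the Newton number
is `i / 2 + x` times its dimension. So `0 ≤ x` by weak admissibility, and `T_i` has trace zero; hence
`T_i` is nilpotent, and then `a_i = 0`.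

(2) The sum over `i` of the second moments of the slopes is `c` times the second moment for `H²` plus
the sum of the traces of the squares of the `T_i`. For another embedding of the field of the
Frobenius eigenvalues in the algebraic closure of `ℚ_p` one has other slopes, with operators `T_i'`
in `A_i`; their eigenvalues are again rational. As the characteristic polynomials are rational, the
second moments do not change. Hence the `T_i'` are nilpotent, too.

(3) The mean over all embeddings of the slopes of a Weil number of weight `w` is `w / 2` (take the
norm). So the weight operator of `H^i` is twice the mean of the slope operators for all embeddings,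
and by (2) it is `i + ρ_i (D_2)` up to a commuting nilpotent operator, where `D_2` is the centred
weight operator of `H²`.

(4) The conjecture for `H²` gives an `sl₂`-triple `(Y, D_2, N_2)` in `so(H²)`. Its image in the
endomorphisms of `H^i` shows the conjecture for `H^i`, by (1) and (3).
-/

set_option autoImplicit false

namespace Pool.Agent.Results.MP_d037d4_ag.HyperkaehlerH12

open Pool.Agent.V7H12.PW

/-- **The `p`-adic weight-monodromy conjecture for projective hyperkähler varieties.** Let `X` be a
projective hyperkähler variety over a finite extension of `ℚ_p` with residue field of order `q`.

(1) For all `i` the monodromy operator `N_i` of `H^i_HK(X)` is the image of `N_2` under the action of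
`so(H²)` on `H^i`. So if `H²` is crystalline (`N_2 = 0`), then all `H^i` are.

(2) Suppose that the Frobenius on `H²` and on the sum of all `H^i` has a characteristic polynomial with
rational coefficients. (For the sum this is Ochiai's theorem if the odd cohomology of `X` is zero.)
Then the weight-monodromy conjecture holds for `H^i_HK(X)` for all `i`. -/
theorem result {q : ℕ} (hq : 1 < q) (X : HyodoKato q) :
    (∀ i ≤ X.d, X.MonodromyFromH2 i) ∧
      (RationalPoly (X.P 2) → RationalPoly (∏ i ∈ Finset.range (X.d + 1), X.P i) →
        ∀ i ≤ X.d, X.IsPure i) :=
  ⟨fun _ hi => X.N_eq hi, fun h2 h _ hi => pure_all X hq h2 h hi⟩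

end Pool.Agent.Results.MP_d037d4_ag.HyperkaehlerH12
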