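import Pool.Agent.V7H12.LF.Fin

/-!
# MP_d037d4_ag: the `p`-adic weight-monodromy conjecture for all projective hyperkähler varieties

Let `X` be a projective hyperkähler variety, of any deformation type, over a finite extension `k` of
`ℚ_p`. We show that the weight-monodromy conjecture holds for `H^i_HK(X)`, for all `i`, and that the
monodromy operator of `H^i` is the image of the one of `H²` under the action of `so(H²)`.

Idea of the proof. `X` is defined over a finitely generated field contained in `k`, and it is a member of
a smooth projective family over a scheme `S`, smooth over `ℤ[1 / N]`. Let `Γ` be the fundamental
group of `S`, and `A_i` the algebra of the endomorphisms of `H^i` which commute with `so(H²)`.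

(1) Let `s` be a closed point of `S` with residue field of prime order `p'`. The slope operator of the
crystalline cohomology of `X_s` is `i / 2 + ρ_i (S_2 - 1) + T_i` with `T_i` in `A_i`. As `so(H²)` is
perfect, weak admissibility shows that `T_i` is nilpotent. In terms of the second moments of the slopes
this only depends on the characteristic polynomials of Frobenius, so it is also true for the `p`-adic
étale cohomology and for the valuations given by all embeddings of the algebraic numbers. So the
eigenvalues of the Frobenius element of `s` on `A_i` are roots of unity of bounded order, and its
determinants on the images of the idempotents of `A_i` are powers of `p'` up to such roots of unity.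

(2) By Chebotarev's theorem this holds for all elements of `Γ`: they act on `A_i` quasi-unipotently,
and their determinants on the images of the central idempotents of `A_i` which they fix are powers of
the cyclotomic character, up to roots of unity. The central idempotents have finitely many conjugates
under `Γ`; so these properties can be written as the vanishing of regular functions (polynomials in
the matrix coefficients) on `Γ`. Hence they are true for the elements of the Zariski closure of the
image of `Γ`, and so for the linear Frobenius `F` of the Hyodo-Kato cohomology.

(3) The operator `N_i - ρ_i (N_2)` is in `A_i` and it is an eigenvector for `F` with the eigenvalue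
`1 / q`. So it is zero.

(4) The weight operator of `H^i_HK(X)`, minus `i`, is `ρ_i (D_2) + T'_i` with `T'_i` in `A_i`, where
`D_2` is the one of `H²`, minus `2`. By (2) `T'_i` is in the center of `A_i`, and the mean weight on its
generalized eigenspaces is `i`; so `T'_i` is nilpotent.

(5) The conjecture for `H²` gives an `sl₂`-triple `(Y, D_2, N_2)` in `so(H²)`. Its image in the
endomorphisms of `H^i` shows the conjecture for `H^i`.
-/

set_option autoImplicit false

namespace Pool.Agent.Results.MP_d037d4_ag.HyperkaehlerLocalFieldsH12

open Pool.Agent.V7H12.LF

/-- **The `p`-adic weight-monodromy conjecture for projective hyperkähler varieties.** Let `X` be a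
projective hyperkähler variety over a finite extension `k` of `ℚ_p` with residue field of order `q`.
For all `i` the weight-monodromy conjecture holds for `H^i_HK(X)`, and the monodromy operator `N_i` of
`H^i_HK(X)` is the image of `N_2` under the action of `so(H²)` on `H^i`. -/
theorem result {Ω : Type} [Field Ω] [CharZero Ω] [IsAlgClosed Ω] [TopologicalSpace Ω]
    [IsTopologicalRing Ω] [T2Space Ω] {q : ℕ} (hq : 1 < q) (X : Family Ω)
    (L : HyodoKatoData X q) :
    ∀ i ≤ X.d, L.IsPure i ∧ L.MonodromyFromH2 i :=
  fun _ hi => ⟨pure_all hq L.closure L.M hi, N_rho L.closure L.M hq hi⟩

end Pool.Agent.Results.MP_d037d4_ag.HyperkaehlerLocalFieldsH12
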