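import Pool.Agent.X302.MW.Three

/-!
# MP_d037d4_ag: the p-adic weight-monodromy conjecture for threefolds without differential forms of
# degree two and three

The starting file `Pool.Agent.X302.MW.Three` proves the `ℓ`-adic weight-monodromy conjecture for these
threefolds, with the help of the slopes of the `p`-adic cohomology. Here the same method is applied to
the `p`-adic theory itself (crystalline cohomology of the strata of the special fibre, Hyodo-Kato
cohomology of the generic fibre, weight spectral sequence of Mokrane).
-/

set_option autoImplicit false

open Module

universe u v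

namespace Pool.Agent.Results.MP_d037d4_ag.ThreefoldsWithoutFormsH36

open Pool.Agent.Y143 Pool.Agent.X302.MW

/-- The characteristic polynomials of the Frobenius on `H^2` of the components `Y^(1)` and of the double
surfaces `Y^(2)` have rational coefficients (Katz-Messing): conjugate numbers have the same
multiplicities. -/
def RationalOnH2 {Ω : Type u} [Field Ω] [CharZero Ω] {Γ : Type} {n q : ℕ}
    (X : SpecialFibre.{u, v} Ω Γ n q) : Prop :=
  SameFrobenius X X 0 2 ∧ SameFrobenius X X 1 2

/-- **The p-adic weight-monodromy conjecture for threefolds without differential forms of degree two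
and three.** Let `X_K` be a smooth projective threefold over a finite extension `K` of `ℚ_p`, with
`H^2(X_K, O) = H^3(X_K, O) = 0`, which has a projective strictly semistable model over the ring of
integers, with residue field with `q` elements. Suppose that the irreducible components of the
special fibre satisfy the Tate conjecture for divisors. Then the weight-monodromy conjecture holds
for the Hyodo-Kato cohomology `H^k_HK(X_K)`, for all `k`. Moreover, for every number `α` which is not a
product of `q` and a root of unity the restriction is a bijection from the `α`-part of `H^2(Y^(1))`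
to the `α`-part of `H^2(Y^(2))` (so that such an `α` does not contribute to the graded pieces of
even weight of `H^3`).

`X` is the `p`-adic theory: the crystalline cohomology of the strata of the special fibre and the
Hyodo-Kato cohomology `V k` of the generic fibre, with the linearized Frobenius, the monodromy operator
`N` and the weight spectral sequence of Mokrane, with coefficients in an algebraically closed field
`Ω`, for instance an algebraic closure of `K`; `R` is its valuation ring. The hypotheses are the
following.

* `hI`, `hC` (Katz-Messing): the Frobenius eigenvalues on the strata are algebraic integers, and the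
  characteristic polynomials on `H^2(Y^(1))` and `H^2(Y^(2))` are rational.
* `h2`: the Frobenius eigenvalues on `H^2` of the generic fibre are products of `q` and roots of unity;
  this is the case if `H^2(X_K, O) = 0`, because then `H^2` is spanned by classes of divisors.
* `h3`: the Frobenius eigenvalues on `H^3` of the generic fibre have slope at least one; this is the
  case if `H^3(X_K, O) = 0`, because the Newton polygon lies above the Hodge polygon.
* `hT`: the Tate conjecture for divisors on the components (for the crystalline classes). -/
theorem result {Ω : Type u} [Field Ω] [CharZero Ω] [IsAlgClosed Ω] {Γ : Type} {q : ℕ}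
    (hq : IsPrimePow q) (X : Degeneration.{u, v} Ω Γ 3 q) (A : DivisorClasses X.toSpecialFibre)
    (hI : HasIntegralFrobenius X.toSpecialFibre) (hC : RationalOnH2 X.toSpecialFibre)
    (R : ValuationSubring Ω) (hR : ((q : Ω))⁻¹ ∉ R)
    (h2 : ∀ α, IsEigenvalueOn X.toSemistableModel 2 α → IsTateNumber q α)
    (h3 : ∀ α, IsEigenvalueOn X.toSemistableModel 3 α → α / q ∈ R)
    (hT : A.TateConj 0) :
    (∀ k : ℕ, IsMWPure q k (X.actV k X.frob) (X.N k)) ∧
    ∀ α : Ω, ¬ IsTateNumber q α → ∀ z ∈ frobPart X.toSpecialFibre 1 2 α,
      ∃! y, y ∈ frobPart X.toSpecialFibre 0 2 α ∧ X.res 0 y = z := by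
  have hs : ∀ α : Ω, ¬ IsTateNumber q α → ∀ z ∈ frobPart X.toSpecialFibre 1 2 α,
      ∃ y ∈ frobPart X.toSpecialFibre 0 2 α, X.res 0 y = z := fun α hα z hz =>
    surj_of_compare X.toSemistableModel X.toSemistableModel rfl hq hI hI hC.1 hC.2 R hR h2 h3 α
      hα z hz
  refine ⟨fun k => mw_three X rfl hI A hT hs k, fun α hα z hz => ?_⟩
  obtain ⟨y, hy, hyz⟩ := hs α hα z hz
  refine ⟨y, ⟨hy, hyz⟩, ?_⟩
  rintro y' ⟨hy', hyz'⟩
  have h1 := res_inj X.toSemistableModel hI h2 hα (Submodule.sub_mem _ hy' hy)
    (by rw [map_sub, hyz', hyz, sub_self])
  exact sub_eq_zero.1 h1

end Pool.Agent.Results.MP_d037d4_ag.ThreefoldsWithoutFormsH36
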