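import Pool.Agent.V7H32.WM.Main

/-!
# The `p`-adic weight-monodromy conjecture is a vanishing statement in weight minus one

Let `Y` be smooth and projective over a finite extension `L` of `ℚ_p` with residue field with `q`
elements, and let `H^m(Y)` be its Hyodo-Kato cohomology with the linear Frobenius operator `F` and
the monodromy operator `N`. If the weight-monodromy conjecture holds, then the weights of `F` on the
kernel of `N` in `H^m(Y)` are at most `m`. In particular there is no `x ≠ 0` in `H^(2 b - 1)(Y)` with
`N x = 0` and `F x = q ^ b x`; in terms of the representation `V = H^(2 b - 1)(Y, ℚ_p(b))`, the target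
of the `p`-adic Abel-Jacobi map, this says that `D_cris(V)` has no nonzero vectors fixed by the
Frobenius, that is, the subgroups `H^1_e(L, V)` and `H^1_f(L, V)` of Bloch and Kato are equal.

We prove that this apparently much weaker statement, for all `Y` over all finite extensions (it is
enough to consider the middle cohomology of varieties of odd dimension), is equivalent to the
conjecture. Only Frobenius eigenvalues which are powers of `q` occur in it. More precisely, for one
variety `X` it is enough to consider the products `X × E^r × A`, `E` a Tate curve and `A` a variety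
with good reduction, over finite extensions. Moreover the conjecture for `X` is equivalent to the
upper bound for the weights on the kernel of `N` for the products `X × E^r` (it is enough to exclude
the weight `d + 1` in the middle cohomology `H^d`), and, for every `k ≥ 0`, to the upper bound
`w < m + 2 k + 2` for the weights on the kernel of `N` in `H^m(X^(2 k + 2))`: the trivial direction
gives `w ≤ m`, so a bound with a large error term is sufficient.

Proof. If the conjecture fails in degree `m` then by Poincare duality there are a generalized
eigenvector `v` of `F` in `H^m(X)` of weight `m + c` and `l < c` with `N^(l+1) v = 0 ≠ N^l v`. Let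
`e₀`, `e₁` be the eigenvectors in the first cohomology group of a Tate curve, `N e₁ = e₀`. Then
`l v ⊗ e₀ - N v ⊗ e₁` has the same properties for `m + 1`, `c - 1`, `l - 1`; and so has `v ⊗ e₀` if
`l = 0`. So `X × E^(c-1)` has a class of weight `m + c` on the kernel of `N` in degree `m + c - 1`.
The products with the classes of degree `0` and `2` of `E` move it to the middle degree. By the
theorems of Honda, Tate, Shimura and Taniyama, there is an abelian variety of CM type with an
eigenvalue `γ` such that the product of `γ` and a power of the eigenvalue is a power of `q`. For the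
even powers of `X` one takes the products of the vectors `∑ (-1)^i N^i v ⊗ N^(l-i) v`.
-/

set_option autoImplicit false

namespace Pool.Agent.Results.MP_d037d4_ag.WeightMinusOneH32

universe u v w

open Pool.Agent.H914 Pool.Agent.V7H32.WM

/-- **Criteria for the `p`-adic weight-monodromy conjecture.** The data `D` consist of the
Hyodo-Kato cohomology of a class of varieties (the smooth projective varieties) over the finite
extensions `L` of a `p`-adic field, with the known properties (`D.IsKnown`).

(1) For a variety `X` over `L` and a Tate curve `E` over `L` the following are equivalent: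
the weight-monodromy conjecture for `X` in all degrees; for all `r` the weights on the kernel of `N`
in `H^m(X × E^r)` are at most `m`; for all `r` the number `d + 1` is not a weight on the kernel of `N`
in the middle cohomology `H^d(X × E^r)`, `d = dim X + r`; the weights `w` on the kernel of `N` in
`H^m(X^(2 k + 2))` satisfy `w < m + 2 k + 2` (for one fixed `k`, which is arbitrary); for all products
`Y = X × E'^r × A` over finite extensions `L'` of `L`, with a Tate curve `E'` and a variety `A` with good
reduction, and all `b`, there is no `x ≠ 0` in `H^(2 b - 1)(Y)` with `N x = 0` and `F x = q^b x`, `q` the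
number of elements of the residue field of `L'`; the same for `2 b - 1 = dim Y` only.

(2) The following are equivalent: the weight-monodromy conjecture for all varieties of the class,
over all finite extensions; for all these varieties the weights on the kernel of `N` in `H^m` are at
most `m`; for all these varieties `Y` and all `b` there is no `x ≠ 0` in `H^(2 b - 1)(Y)` with `N x = 0`
and `F x = q^b x`; the same for `2 b - 1 = dim Y` only. -/
theorem result {K : Type u} [Field K] {Ω : Type w} [Field Ω] [CharZero Ω] [IsAlgClosed Ω]
    {D : HKData.{u, v, w} K Ω} (hD : D.IsKnown) :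
    (∀ (L : FinExt K) (X E : Var L) (k : ℕ), D.P L X → IsTateCurve D L E →
      List.TFAE [
        WeightMonodromy D L X,
        ∀ r : ℕ, LowWeights D L (timesPow X E r),
        ∀ r : ℕ, ¬ KerWeight D L (timesPow X E r) (X.dim + r) (X.dim + r + 1),
        ∀ (m : ℕ) (w : ℤ), KerWeight D L (Pool.Agent.Y163.MW.pow X (2 * k + 1)) m w →
          w < m + (2 * k + 2),
        ForMixed D L (NoTate D) X,
        ForMixed D L (NoMiddleTate D) X]) ∧
    List.TFAE [
      ∀ (L : FinExt K) (X : Var L), D.P L X → WeightMonodromy D L X,
      ∀ (L : FinExt K) (X : Var L), D.P L X → LowWeights D L X,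
      ∀ (L : FinExt K) (X : Var L), D.P L X → NoTate D L X,
      ∀ (L : FinExt K) (X : Var L), D.P L X → NoMiddleTate D L X] := by
  refine ⟨fun L X E k hX hE => ?_, ?_⟩
  · tfae_have 1 → 2 := fun h r m w hw =>
      kerWeight_le hD (timesPow_mem hD hX hE.mem r) (wm_timesPow hD hX hE.mem h hE.pure r) hw
    tfae_have 2 → 3 := fun h r hw => by
      have := h r (X.dim + r) _ hw
      push_cast at this
      omega
    tfae_have 3 → 1 := fun h => by
      by_contra hcon
      obtain ⟨r, hr⟩ := middle_of_fails hD hX hE hcon
      exact h r hr
    tfae_have 1 → 4 := fun h m w hw => by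
      have := kerWeight_le hD (pow_mem hD hX (2 * k + 1)) (wm_pow hD hX h _) hw
      omega
    tfae_have 4 → 1 := fun h => by
      by_contra hcon
      unfold WeightMonodromy at hcon
      push Not at hcon
      obtain ⟨m, hm⟩ := hcon
      obtain ⟨c, l, α, hlc, hα, hs⟩ := exists_bad (hD.one_lt L) (hD.coh L X hX) hm
      obtain ⟨β, hβ, hwβ⟩ := even_powers hD hX hs hα k
      obtain ⟨x, hx, hx0, hN, hF⟩ := Str.eigen (hD.coh L _ (pow_mem hD hX (2 * k + 1))) hβ
      have h1 := h _ _ ⟨β, x, ⟨hx, hx0, hF, hN⟩, hwβ⟩
      push_cast at h1
      have h2 : (1 : ℤ) ≤ (c : ℤ) - l := by omega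
      nlinarith
    tfae_have 1 → 5 := fun h L' f E' A hE' hA r m b hmb hT => by
      have hX' := hD.bc L L' f X hX
      have h1 := wm_timesPow hD hX' hE'.mem (wm_bc hD f hX h) hE'.pure r
      have h2 := wm_prod hD (timesPow_mem hD hX' hE'.mem r) hA.mem h1 hA.pure
      have h3 := kerWeight_le hD (hD.prod L' _ _ (timesPow_mem hD hX' hE'.mem r) hA.mem) h2
        (hT.kerWeight hD)
      omega
    tfae_have 5 → 6 := fun h L' f E' A hE' hA r b hb => h L' f E' A hE' hA r _ b hb
    tfae_have 6 → 1 := fun h => by
      by_contra hcon
      obtain ⟨L', f, E', A, hE', hA, r, b, hb, hT⟩ := tate_of_fails hD hX hcon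
      exact h L' f E' A hE' hA r b hb hT
    tfae_finish
  · tfae_have 1 → 2 := fun h L X hX m w hw => kerWeight_le hD hX (h L X hX) hw
    tfae_have 2 → 3 := fun h L X hX m b hmb hT => by
      have := h L X hX m _ (hT.kerWeight hD)
      omega
    tfae_have 3 → 4 := fun h L X hX b hb => h L X hX _ b hb
    tfae_have 4 → 1 := fun h L X hX => by
      by_contra hcon
      obtain ⟨L', f, E', A, hE', hA, r, b, hb, hT⟩ := tate_of_fails hD hX hcon
      exact h L' _ (hD.prod L' _ _ (timesPow_mem hD (hD.bc L L' f X hX) hE'.mem r) hA.mem) b hb hT
    tfae_finish

end Pool.Agent.Results.MP_d037d4_ag.WeightMinusOneH32
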